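import Mathlib

/-!
# Spheres with small missing faces: uniqueness of the minimiser `K(i, d - 1)` (Q2)
-/

set_option autoImplicit false

namespace Pool.Agent.Results.MP_94a3a7_co.UniqueMinimizer

open Finset Polynomial

universe u

/-- A finite abstract simplicial complex, its vertices being elements of `V`. -/
structure Complex (V : Type*) where
  /-- the faces, each given by its finite set of vertices -/
  faces : Finset (Finset V)
  empty_mem : ∅ ∈ faces
  down : ∀ s ∈ faces, ∀ t ⊆ s, t ∈ faces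

section Defs

variable {V : Type*} [DecidableEq V]

/-- The faces with exactly `k` vertices (the faces of dimension `k - 1`). -/
def Complex.level (Δ : Complex V) (k : ℕ) : Finset (Finset V) :=
  Δ.faces.filter (fun s => s.card = k)

/-- `Δ.f k` is the face number `f_{k-1}`: the number of faces with `k` vertices. -/
def Complex.f (Δ : Complex V) (k : ℕ) : ℕ := (Δ.level k).card

/-- The `h`-number `h_j = ∑_{k ≤ j} (-1)^(j-k) C(d-k, d-j) f_{k-1}`. -/
def Complex.h (Δ : Complex V) (d j : ℕ) : ℤ :=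
  ∑ k ∈ range (j + 1), (-1) ^ (j - k) * (((d - k).choose (d - j) : ℕ) : ℤ) * (Δ.f k : ℤ)

/-- The `g`-number: `g_0 = 1` and `g_j = h_j - h_{j-1}` for `j ≥ 1`. -/
def Complex.g (Δ : Complex V) (d j : ℕ) : ℤ :=
  if j = 0 then 1 else Δ.h d j - Δ.h d (j - 1)

/-- Missing faces: sets of vertices that are not faces, all of whose proper subsets are. -/
def Complex.IsMissing (Δ : Complex V) (τ : Finset V) : Prop :=
  (∀ v ∈ τ, {v} ∈ Δ.faces) ∧ τ ∉ Δ.faces ∧ ∀ ρ, ρ ⊂ τ → ρ ∈ Δ.faces

/-- The link of a face. -/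
def Complex.link (Δ : Complex V) (σ : Finset V) (hσ : σ ∈ Δ.faces) : Complex V where
  faces := Δ.faces.filter (fun τ => Disjoint τ σ ∧ τ ∪ σ ∈ Δ.faces)
  empty_mem := by
    simp only [mem_filter]
    exact ⟨Δ.empty_mem, by simp, by simpa using hσ⟩
  down := by
    intro s hs t ht
    simp only [mem_filter] at hs ⊢
    exact ⟨Δ.down s hs.1 t ht, hs.2.1.mono_left ht,
      Δ.down _ hs.2.2 _ (union_subset_union ht (Subset.refl σ))⟩

/-- The chains of dimension `k - 1` with coefficients in `ℤ/2ℤ`. -/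
abbrev Complex.Chain (Δ : Complex V) (k : ℕ) : Type _ := ↥(Δ.level k) → ZMod 2

/-- The boundary map: the coefficient of `τ` in the boundary of `c` is the sum of the
coefficients in `c` of the faces `ρ` having `τ` as a facet. -/
def Complex.bd (Δ : Complex V) (k : ℕ) : Δ.Chain (k + 1) →ₗ[ZMod 2] Δ.Chain k where
  toFun c := fun τ => ∑ ρ : ↥(Δ.level (k + 1)), if τ.1 ⊆ ρ.1 then c ρ else 0
  map_add' c c' := by
    funext τ
    simp only [Pi.add_apply]
    rw [← Finset.sum_add_distrib]
    refine Finset.sum_congr rfl fun ρ _ => ?_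
    split_ifs <;> simp
  map_smul' a c := by
    funext τ
    simp only [Pi.smul_apply, smul_eq_mul, RingHom.id_apply]
    rw [Finset.mul_sum]
    refine Finset.sum_congr rfl fun ρ _ => ?_
    split_ifs <;> simp

/-- The cycles of dimension `k - 1` (reduced: the boundary map out of dimension `-1` is `0`). -/
def Complex.cycles (Δ : Complex V) : (k : ℕ) → Submodule (ZMod 2) (Δ.Chain k)
  | 0 => ⊤
  | k + 1 => LinearMap.ker (Δ.bd k)

/-- The boundaries of dimension `k - 1`. -/
def Complex.boundaries (Δ : Complex V) (k : ℕ) : Submodule (ZMod 2) (Δ.Chain k) :=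
  LinearMap.range (Δ.bd k)

/-- The reduced Betti number with coefficients in `ℤ/2ℤ` in dimension `k - 1`: the dimension of
the reduced homology space (cycles modulo boundaries). -/
noncomputable def Complex.betti (Δ : Complex V) (k : ℕ) : ℕ :=
  Module.finrank (ZMod 2) (↥(Δ.cycles k) ⧸ (Δ.boundaries k).submoduleOf (Δ.cycles k))

/-- `Δ` is a `(d-1)`-sphere: a pure `(d-1)`-dimensional complex such that the link of every face
`σ` (also of `∅`) has the reduced `ℤ/2ℤ`-homology of a sphere of dimension `d - 1 - |σ|`. -/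
structure Complex.IsSphere (Δ : Complex V) (d : ℕ) : Prop where
  card_le : ∀ s ∈ Δ.faces, s.card ≤ d
  pure : ∀ s ∈ Δ.faces, ∃ t ∈ Δ.faces, s ⊆ t ∧ t.card = d
  homology : ∀ (σ : Finset V) (hσ : σ ∈ Δ.faces) (k : ℕ),
    (Δ.link σ hσ).betti k = if k + σ.card = d then 1 else 0

/-- `Δ ∈ S(i, d-1)`: a `(d-1)`-sphere all of whose missing faces have dimension at most `i`. -/
def InS (i d : ℕ) (Δ : Complex V) : Prop :=
  Δ.IsSphere d ∧ ∀ τ, Δ.IsMissing τ → τ.card ≤ i + 1

/-- Two complexes are isomorphic: a map of the vertices, one-to-one on the vertices of the first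
complex, takes the faces of the first complex exactly to those of the second. -/
def Iso {W : Type*} [DecidableEq W] (Γ : Complex W) (Δ : Complex V) : Prop :=
  ∃ φ : W → V, Set.InjOn φ {w | {w} ∈ Γ.faces} ∧ Δ.faces = Γ.faces.image (Finset.image φ)

end Defs

/-- The number of vertices of the `j`-th block of `K(i, d-1)`. -/
def blk (i q r : ℕ) (j : Fin (q + 1)) : ℕ := if j = 0 then r + 1 else i + 1

lemma blk_pos (i q r : ℕ) (j : Fin (q + 1)) : 0 < blk i q r j := by
  unfold blk; split_ifs <;> omega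

/-- `K(i, d-1)` for `d = q i + r`: the join of the boundary of the `r`-simplex (block `0`) and of
`q` copies of the boundary of the `i`-simplex (blocks `1, ..., q`).  The faces are the sets of
vertices that contain no whole block. -/
def K (i q r : ℕ) : Complex (Σ j : Fin (q + 1), Fin (blk i q r j)) where
  faces := univ.filter (fun σ => ∀ j, ∃ a, (⟨j, a⟩ : Σ j : Fin (q + 1), Fin (blk i q r j)) ∉ σ)
  empty_mem := by
    simp only [mem_filter, mem_univ, true_and]
    intro j
    exact ⟨⟨0, blk_pos i q r j⟩, by simp⟩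
  down := by
    intro s hs t ht
    simp only [mem_filter, mem_univ, true_and] at hs ⊢
    intro j
    obtain ⟨a, ha⟩ := hs j
    exact ⟨a, fun h => ha (ht h)⟩

/-! ## Euler characteristics -/

section Euler

variable {V : Type*} [DecidableEq V]

lemma bd_bd (Δ : Complex V) (k : ℕ) (c : Δ.Chain (k + 2)) : Δ.bd k (Δ.bd (k + 1) c) = 0 := by
  funext τ
  show (∑ ρ : ↥(Δ.level (k + 1)), if τ.1 ⊆ ρ.1 then
    (∑ π : ↥(Δ.level (k + 2)), if ρ.1 ⊆ π.1 then c π else 0) else 0) = 0
  have h1 : ∀ ρ : ↥(Δ.level (k + 1)), (if τ.1 ⊆ ρ.1 then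
      (∑ π : ↥(Δ.level (k + 2)), if ρ.1 ⊆ π.1 then c π else 0) else 0) =
      ∑ π : ↥(Δ.level (k + 2)), if τ.1 ⊆ ρ.1 ∧ ρ.1 ⊆ π.1 then c π else 0 := by
    intro ρ
    split_ifs with h
    · simp [h]
    · simp [h]
  simp_rw [h1]
  rw [Finset.sum_comm]
  refine Finset.sum_eq_zero fun π _ => ?_
  rw [← Finset.sum_filter, Finset.sum_const]
  have hπ := π.2
  have hτ := τ.2
  simp only [Complex.level, mem_filter] at hπ hτ
  have h2 : Even (univ.filter (fun ρ : ↥(Δ.level (k + 1)) => τ.1 ⊆ ρ.1 ∧ ρ.1 ⊆ π.1)).card := by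
    by_cases hτπ : τ.1 ⊆ π.1
    · have h3 : (univ.filter (fun ρ : ↥(Δ.level (k + 1)) => τ.1 ⊆ ρ.1 ∧ ρ.1 ⊆ π.1)).card =
          (π.1 \ τ.1).card := by
        symm
        refine Finset.card_bij (fun a ha => ⟨insert a τ.1, ?_⟩) ?_ ?_ ?_
        · simp only [Complex.level, mem_filter]
          rw [mem_sdiff] at ha
          refine ⟨Δ.down _ hπ.1 _ (insert_subset ha.1 hτπ), ?_⟩
          rw [card_insert_of_notMem ha.2, hτ.2]
        · intro a ha
          rw [mem_sdiff] at ha
          simp only [mem_filter, mem_univ, true_and]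
          exact ⟨subset_insert _ _, insert_subset ha.1 hτπ⟩
        · intro a ha b hb hab
          rw [mem_sdiff] at ha hb
          have := congrArg Subtype.val hab
          simp only at this
          have h5 : a ∈ insert b τ.1 := by rw [← this]; exact mem_insert_self _ _
          rcases mem_insert.1 h5 with h | h
          · exact h
          · exact absurd h ha.2
        · intro ρ hρ
          simp only [mem_filter, mem_univ, true_and] at hρ
          have hρ2 := ρ.2
          simp only [Complex.level, mem_filter] at hρ2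
          have h6 : (ρ.1 \ τ.1).card = 1 := by
            rw [card_sdiff_of_subset hρ.1, hρ2.2, hτ.2]; omega
          obtain ⟨a, ha⟩ := card_eq_one.1 h6
          have ha' : a ∈ ρ.1 \ τ.1 := by rw [ha]; simp
          rw [mem_sdiff] at ha'
          refine ⟨a, ?_, ?_⟩
          · rw [mem_sdiff]; exact ⟨hρ.2 ha'.1, ha'.2⟩
          · apply Subtype.ext
            show insert a τ.1 = ρ.1
            rw [← sdiff_union_of_subset hρ.1, ha]
            rfl
      rw [h3, card_sdiff_of_subset hτπ, hπ.2, hτ.2]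
      exact ⟨1, by omega⟩
    · have : (univ.filter (fun ρ : ↥(Δ.level (k + 1)) => τ.1 ⊆ ρ.1 ∧ ρ.1 ⊆ π.1)) = ∅ := by
        rw [filter_eq_empty_iff]
        intro ρ _ h
        exact hτπ (h.1.trans h.2)
      rw [this]; simp
  obtain ⟨m, hm⟩ := h2
  rw [hm, ← two_mul, mul_smul, two_smul]
  exact CharTwo.add_self_eq_zero _

lemma boundaries_le_cycles (Δ : Complex V) (k : ℕ) : Δ.boundaries k ≤ Δ.cycles k := by
  rintro c ⟨e, rfl⟩
  cases k with
  | zero => exact Submodule.mem_top
  | succ k =>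
    show Δ.bd k (Δ.bd (k + 1) e) = 0
    exact bd_bd Δ k e

lemma betti_eq (Δ : Complex V) (k : ℕ) : (Δ.betti k : ℤ) =
    (Module.finrank (ZMod 2) (Δ.cycles k) : ℤ) - (Module.finrank (ZMod 2) (Δ.boundaries k) : ℤ) := by
  have h1 := Submodule.finrank_quotient_add_finrank ((Δ.boundaries k).submoduleOf (Δ.cycles k))
  have h2 : Module.finrank (ZMod 2) ↥((Δ.boundaries k).submoduleOf (Δ.cycles k)) =
      Module.finrank (ZMod 2) (Δ.boundaries k) :=
    (Submodule.submoduleOfEquivOfLe (boundaries_le_cycles Δ k)).finrank_eq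
  unfold Complex.betti
  rw [h2] at h1
  have := congrArg (Nat.cast : ℕ → ℤ) h1
  push_cast at this
  linarith

omit [DecidableEq V] in
lemma chain_finrank (Δ : Complex V) (k : ℕ) :
    Module.finrank (ZMod 2) (Δ.Chain k) = Δ.f k := by
  rw [Module.finrank_fintype_fun_eq_card, Fintype.card_coe]
  rfl

lemma f_zero_eq (Δ : Complex V) : (Δ.f 0 : ℤ) = (Module.finrank (ZMod 2) (Δ.cycles 0) : ℤ) := by
  rw [← chain_finrank]
  show _ = (Module.finrank (ZMod 2) (⊤ : Submodule (ZMod 2) (Δ.Chain 0)) : ℤ)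
  rw [finrank_top]

lemma f_succ_eq (Δ : Complex V) (k : ℕ) : (Δ.f (k + 1) : ℤ) =
    (Module.finrank (ZMod 2) (Δ.cycles (k + 1)) : ℤ) +
      (Module.finrank (ZMod 2) (Δ.boundaries k) : ℤ) := by
  rw [← chain_finrank]
  have := LinearMap.finrank_range_add_finrank_ker (Δ.bd k)
  show _ = (Module.finrank (ZMod 2) (LinearMap.ker (Δ.bd k)) : ℤ) +
    (Module.finrank (ZMod 2) (LinearMap.range (Δ.bd k)) : ℤ)
  rw [← this]; push_cast; ring

lemma euler_aux (Δ : Complex V) (M : ℕ) :
    ∑ k ∈ range (M + 1), (-1 : ℤ) ^ k * (Δ.f k : ℤ) =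
      ∑ k ∈ range (M + 1), (-1 : ℤ) ^ k * (Δ.betti k : ℤ) +
        (-1) ^ M * (Module.finrank (ZMod 2) (Δ.boundaries M) : ℤ) := by
  induction M with
  | zero =>
    simp only [zero_add, range_one, sum_singleton, pow_zero, one_mul]
    rw [betti_eq, f_zero_eq]; ring
  | succ M ih =>
    rw [sum_range_succ, ih, sum_range_succ _ (M + 1), betti_eq, f_succ_eq]
    ring

lemma boundaries_zero (Δ : Complex V) (M : ℕ) (h : ∀ s ∈ Δ.faces, s.card ≤ M) :
    Module.finrank (ZMod 2) (Δ.boundaries M) = 0 := by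
  have h1 : Δ.level (M + 1) = ∅ := by
    unfold Complex.level
    rw [filter_eq_empty_iff]
    intro s hs h2
    have := h s hs
    omega
  have h2 : Module.finrank (ZMod 2) (Δ.Chain (M + 1)) = 0 := by
    rw [chain_finrank]; unfold Complex.f; rw [h1]; rfl
  have h3 := LinearMap.finrank_range_add_finrank_ker (Δ.bd M)
  rw [h2] at h3
  show Module.finrank (ZMod 2) (LinearMap.range (Δ.bd M)) = 0
  omega

/-- Euler-Poincaré. -/
lemma euler (Δ : Complex V) (M : ℕ) (h : ∀ s ∈ Δ.faces, s.card ≤ M) :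
    ∑ s ∈ Δ.faces, (-1 : ℤ) ^ s.card = ∑ k ∈ range (M + 1), (-1 : ℤ) ^ k * (Δ.betti k : ℤ) := by
  have h1 := euler_aux Δ M
  rw [boundaries_zero Δ M h] at h1
  rw [show (∑ k ∈ range (M + 1), (-1 : ℤ) ^ k * (Δ.betti k : ℤ)) =
    ∑ k ∈ range (M + 1), (-1 : ℤ) ^ k * (Δ.f k : ℤ) by rw [h1]; simp]
  rw [← Finset.sum_fiberwise_of_maps_to (s := Δ.faces) (t := range (M + 1))
    (g := fun s => s.card) (fun s hs => by rw [mem_range]; have := h s hs; omega)]
  refine sum_congr rfl fun k _ => ?_
  rw [Finset.sum_congr rfl (g := fun _ => (-1 : ℤ) ^ k)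
    (fun s hs => by rw [mem_filter] at hs; rw [hs.2])]
  rw [sum_const, nsmul_eq_mul]
  unfold Complex.f Complex.level
  ring

lemma link_euler (Δ : Complex V) (d : ℕ) (hΔ : Δ.IsSphere d) (σ : Finset V) (hσ : σ ∈ Δ.faces) :
    ∑ s ∈ (Δ.link σ hσ).faces, (-1 : ℤ) ^ s.card = (-1) ^ (d - σ.card) := by
  have h0 : ∀ s ∈ (Δ.link σ hσ).faces, s.card ≤ d := by
    intro s hs
    simp only [Complex.link, mem_filter] at hs
    exact hΔ.card_le s hs.1
  rw [euler _ d h0]
  have hc := hΔ.card_le σ hσ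
  rw [Finset.sum_eq_single (d - σ.card)]
  · rw [hΔ.homology σ hσ, if_pos (by omega)]; simp
  · intro k _ hk
    rw [hΔ.homology σ hσ, if_neg (by omega)]; simp
  · intro h
    exact absurd (mem_range.2 (by omega)) h

lemma star_sum (Δ : Complex V) (d : ℕ) (hΔ : Δ.IsSphere d) (σ : Finset V) (hσ : σ ∈ Δ.faces) :
    ∑ s ∈ Δ.faces.filter (fun s => σ ⊆ s), (-1 : ℤ) ^ s.card = (-1) ^ d := by
  have hc := hΔ.card_le σ hσ
  have h1 : ∑ s ∈ Δ.faces.filter (fun s => σ ⊆ s), (-1 : ℤ) ^ s.card =
      ∑ s ∈ (Δ.link σ hσ).faces, (-1 : ℤ) ^ (s.card + σ.card) := by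
    refine Finset.sum_nbij' (fun s => s \ σ) (fun s => s ∪ σ) ?_ ?_ ?_ ?_ ?_
    · intro s hs
      rw [mem_filter] at hs
      simp only [Complex.link, mem_filter]
      exact ⟨Δ.down _ hs.1 _ sdiff_subset, sdiff_disjoint, by
        rw [sdiff_union_of_subset hs.2]; exact hs.1⟩
    · intro s hs
      simp only [Complex.link, mem_filter] at hs
      rw [mem_filter]
      exact ⟨hs.2.2, subset_union_right⟩
    · intro s hs
      rw [mem_filter] at hs
      exact sdiff_union_of_subset hs.2
    · intro s hs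
      simp only [Complex.link, mem_filter] at hs
      exact union_sdiff_cancel_right hs.2.1
    · intro s hs
      rw [mem_filter] at hs
      show _ = (-1 : ℤ) ^ ((s \ σ).card + σ.card)
      rw [card_sdiff_add_card_eq_card hs.2]
  rw [h1]
  simp_rw [pow_add]
  rw [← Finset.sum_mul, link_euler Δ d hΔ σ hσ, ← pow_add]
  congr 1
  omega

end Euler


/-! ## The Dehn-Sommerville equations -/

section DS

variable {V : Type*} [DecidableEq V]

/-- The `f`-polynomial. -/
noncomputable def fpoly (Δ : Complex V) : ℤ[X] := ∑ s ∈ Δ.faces, X ^ s.card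

omit [DecidableEq V] in
lemma coeff_fpoly (Δ : Complex V) (k : ℕ) : (fpoly Δ).coeff k = (Δ.f k : ℤ) := by
  unfold fpoly Complex.f Complex.level
  rw [finsetSum_coeff]
  simp_rw [coeff_X_pow]
  rw [Finset.sum_boole]
  congr 2
  ext s
  simp only [mem_filter]
  exact ⟨fun h => ⟨h.1, h.2.symm⟩, fun h => ⟨h.1, h.2.symm⟩⟩

lemma fpoly_comp (Δ : Complex V) (d : ℕ) (hΔ : Δ.IsSphere d) :
    (fpoly Δ).comp (-1 - X) = (-1) ^ d * fpoly Δ := by
  unfold fpoly
  have h0 : (∑ s ∈ Δ.faces, (X : ℤ[X]) ^ s.card).comp (-1 - X) =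
      ∑ s ∈ Δ.faces, ((X : ℤ[X]) ^ s.card).comp (-1 - X) :=
    map_sum (compRingHom (-1 - X : ℤ[X])) _ _
  rw [h0]
  simp_rw [X_pow_comp]
  have h1 : ∀ s ∈ Δ.faces, (-1 - X : ℤ[X]) ^ s.card =
      ∑ ρ ∈ s.powerset, (-1 : ℤ[X]) ^ s.card * X ^ ρ.card := by
    intro s _
    rw [← Finset.mul_sum]
    have h2 := Finset.sum_pow_mul_eq_add_pow (X : ℤ[X]) 1 s
    simp only [one_pow, mul_one] at h2
    rw [h2, ← mul_pow]
    congr 1
    ring
  rw [Finset.sum_congr rfl h1]
  rw [Finset.sum_comm' (s := Δ.faces) (t := fun s => s.powerset) (t' := Δ.faces)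
    (s' := fun ρ => Δ.faces.filter (fun s => ρ ⊆ s))]
  · rw [Finset.mul_sum]
    refine Finset.sum_congr rfl fun ρ hρ => ?_
    rw [← Finset.sum_mul]
    congr 1
    have := star_sum Δ d hΔ ρ hρ
    have h3 := congrArg (Int.cast : ℤ → ℤ[X]) this
    push_cast at h3
    exact h3
  · intro s ρ
    simp only [mem_powerset, mem_filter]
    constructor
    · rintro ⟨h1, h2⟩
      exact ⟨⟨h1, h2⟩, Δ.down _ h1 _ h2⟩
    · rintro ⟨⟨h1, h2⟩, _⟩
      exact ⟨h1, h2⟩

end DS

/-! ## The complex `K` -/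

section KK

lemma sum_blk (i q r : ℕ) : ∑ j, blk i q r j = (r + 1) + q * (i + 1) := by
  rw [Fin.sum_univ_succ]
  simp [blk, Fin.succ_ne_zero]

lemma K_mem (i q r : ℕ) (σ : Finset (Σ j : Fin (q + 1), Fin (blk i q r j))) :
    σ ∈ (K i q r).faces ↔ ∀ j, ∃ a, (⟨j, a⟩ : Σ j : Fin (q + 1), Fin (blk i q r j)) ∉ σ := by
  simp [K]

lemma K_card_le (i q r : ℕ) : ∀ s ∈ (K i q r).faces, s.card ≤ q * i + r := by
  intro s hs
  rw [K_mem] at hs
  choose a ha using hs
  have h1 : (univ.image (fun j => (⟨j, a j⟩ : Σ j : Fin (q + 1), Fin (blk i q r j)))) ⊆ sᶜ := by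
    intro x hx
    simp only [mem_image, mem_univ, true_and] at hx
    obtain ⟨j, rfl⟩ := hx
    simpa using ha j
  have h2 := card_le_card h1
  rw [card_image_of_injective] at h2
  · rw [card_compl, Fintype.card_sigma] at h2
    simp only [Fintype.card_fin, card_univ] at h2
    rw [sum_blk] at h2
    have h3 : s.card ≤ Fintype.card (Σ j : Fin (q + 1), Fin (blk i q r j)) := card_le_univ s
    rw [Fintype.card_sigma] at h3
    simp only [Fintype.card_fin] at h3
    rw [sum_blk] at h3
    have h4 : q * (i + 1) = q * i + q := by ring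
    omega
  · intro j j' h
    exact (Sigma.mk.inj h).1

lemma fpoly_K (i q r : ℕ) :
    fpoly (K i q r) = ∏ j : Fin (q + 1), ((X + 1) ^ (blk i q r j) - X ^ (blk i q r j)) := by
  have h1 : ∀ j : Fin (q + 1), ((X + 1) ^ (blk i q r j) - X ^ (blk i q r j) : ℤ[X]) =
      ∑ S ∈ (univ : Finset (Fin (blk i q r j))).ssubsets, X ^ S.card := by
    intro j
    have h2 := Finset.sum_pow_mul_eq_add_pow (X : ℤ[X]) 1 (univ : Finset (Fin (blk i q r j)))
    simp only [one_pow, mul_one, card_univ, Fintype.card_fin] at h2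
    rw [← h2, ssubsets, ← Finset.add_sum_erase _ _ (mem_powerset_self univ)]
    simp
  simp_rw [h1]
  rw [Finset.prod_univ_sum]
  unfold fpoly
  symm
  refine Finset.sum_nbij' (fun p => univ.sigma p)
    (fun σ j => univ.filter (fun a => (⟨j, a⟩ : Σ j : Fin (q + 1), Fin (blk i q r j)) ∈ σ))
    ?_ ?_ ?_ ?_ ?_
  · intro p hp
    rw [Fintype.mem_piFinset] at hp
    rw [K_mem]
    intro j
    have := hp j
    rw [mem_ssubsets, ssubset_univ_iff, Ne, eq_univ_iff_forall] at this
    push Not at this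
    obtain ⟨a, ha⟩ := this
    exact ⟨a, by simpa using ha⟩
  · intro σ hσ
    rw [K_mem] at hσ
    rw [Fintype.mem_piFinset]
    intro j
    rw [mem_ssubsets, ssubset_univ_iff, Ne, eq_univ_iff_forall]
    push Not
    obtain ⟨a, ha⟩ := hσ j
    exact ⟨a, by simpa using ha⟩
  · intro p _
    funext j
    ext a
    simp
  · intro σ _
    ext ⟨j, a⟩
    simp
  · intro p _
    rw [card_sigma, Finset.prod_pow_eq_pow_sum]

lemma fpoly_K_comp (i q r : ℕ) :
    (fpoly (K i q r)).comp (-1 - X) = (-1) ^ (q * i + r) * fpoly (K i q r) := by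
  rw [fpoly_K, Polynomial.prod_comp]
  have h1 : ∀ j : Fin (q + 1), ((X + 1) ^ (blk i q r j) - X ^ (blk i q r j) : ℤ[X]).comp (-1 - X) =
      (-1) ^ (blk i q r j + 1) * ((X + 1) ^ (blk i q r j) - X ^ (blk i q r j)) := by
    intro j
    simp only [sub_comp, pow_comp, add_comp, X_comp, one_comp]
    have h2 : (-1 - X + 1 : ℤ[X]) = (-1) * X := by ring
    have h3 : (-1 - X : ℤ[X]) = (-1) * (X + 1) := by ring
    rw [h2, h3, mul_pow, mul_pow]
    ring
  simp_rw [h1]
  rw [Finset.prod_mul_distrib, Finset.prod_pow_eq_pow_sum, Finset.sum_add_distrib, sum_blk]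
  congr 1
  simp only [sum_const, card_univ, Fintype.card_fin, smul_eq_mul, mul_one]
  rw [show r + 1 + q * (i + 1) + (q + 1) = (q * i + r) + 2 * (q + 1) by ring, pow_add]
  rw [pow_mul]
  simp

end KK

/-! ## Equal `g`-numbers give equal face numbers -/

section Feq

variable {V W : Type*} [DecidableEq V] [DecidableEq W]

omit [DecidableEq V] in
lemma f_zero (Δ : Complex V) : Δ.f 0 = 1 := by
  unfold Complex.f Complex.level
  rw [card_eq_one]
  refine ⟨∅, ?_⟩
  ext s
  simp only [mem_filter, mem_singleton, card_eq_zero]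
  constructor
  · exact fun h => h.2
  · rintro rfl
    exact ⟨Δ.empty_mem, rfl⟩

omit [DecidableEq V] in
lemma h_zero (Δ : Complex V) (d : ℕ) : Δ.h d 0 = 1 := by
  unfold Complex.h
  simp [f_zero]

omit [DecidableEq V] [DecidableEq W] in
lemma h_eq_of_g (Δ : Complex V) (Γ : Complex W) (d : ℕ)
    (hg : ∀ j ≤ d / 2, Δ.g d j = Γ.g d j) : ∀ j ≤ d / 2, Δ.h d j = Γ.h d j := by
  intro j
  induction j with
  | zero => intro _; rw [h_zero, h_zero]
  | succ j ih =>
    intro hj
    have h1 := hg (j + 1) hj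
    have h2 := ih (by omega)
    simp only [Complex.g, Nat.succ_ne_zero, if_false, Nat.add_sub_cancel] at h1
    linarith

omit [DecidableEq V] [DecidableEq W] in
lemma f_eq_of_h (Δ : Complex V) (Γ : Complex W) (d m : ℕ)
    (hh : ∀ j ≤ m, Δ.h d j = Γ.h d j) : ∀ k ≤ m, Δ.f k = Γ.f k := by
  intro k
  induction k using Nat.strong_induction_on with
  | _ k ih =>
    intro hk
    have h1 := hh k hk
    unfold Complex.h at h1
    rw [sum_range_succ, sum_range_succ] at h1
    have h2 : ∑ x ∈ range k, (-1 : ℤ) ^ (k - x) * (((d - x).choose (d - k) : ℕ) : ℤ) * (Δ.f x : ℤ) =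
        ∑ x ∈ range k, (-1) ^ (k - x) * (((d - x).choose (d - k) : ℕ) : ℤ) * (Γ.f x : ℤ) := by
      refine Finset.sum_congr rfl fun x hx => ?_
      rw [mem_range] at hx
      rw [ih x hx (by omega)]
    rw [h2] at h1
    simp only [Nat.sub_self, pow_zero, Nat.choose_self, Nat.cast_one, one_mul] at h1
    have h3 : (Δ.f k : ℤ) = (Γ.f k : ℤ) := by linarith
    exact_mod_cast h3

/-- Two polynomials of degree at most `d` with the symmetry of the Dehn-Sommerville equations and
the same coefficients up to `d / 2` are equal. -/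
lemma poly_eq (F G : ℤ[X]) (d : ℕ) (hF : F.comp (-1 - X) = (-1) ^ d * F)
    (hG : G.comp (-1 - X) = (-1) ^ d * G) (hdF : F.natDegree ≤ d) (hdG : G.natDegree ≤ d)
    (hc : ∀ k ≤ d / 2, F.coeff k = G.coeff k) : F = G := by
  set D := F - G with hD
  have h1 : X ^ (d / 2 + 1) ∣ D := by
    rw [X_pow_dvd_iff]
    intro k hk
    rw [hD, coeff_sub, hc k (by omega), sub_self]
  have h2 : D.comp (-1 - X) = (-1) ^ d * D := by
    rw [hD, sub_comp, hF, hG]; ring
  have h3 : (X + 1) ^ (d / 2 + 1) ∣ D := by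
    obtain ⟨E, hE⟩ := h1
    have h4 : D = (-1) ^ d * D.comp (-1 - X) := by
      rw [h2, ← mul_assoc, ← mul_pow]; simp
    rw [h4, hE, mul_comp, X_pow_comp]
    refine Dvd.dvd.mul_left (Dvd.dvd.mul_right ?_ _) _
    rw [show (-1 - X : ℤ[X]) = (-1) * (X + 1) by ring, mul_pow]
    exact Dvd.intro_left _ rfl
  have h5 : IsCoprime (X ^ (d / 2 + 1) : ℤ[X]) ((X + 1) ^ (d / 2 + 1)) := by
    apply IsCoprime.pow
    exact ⟨-1, 1, by ring⟩
  have h6 := h5.mul_dvd h1 h3
  have h7 : D.natDegree ≤ d := by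
    rw [hD]
    exact (natDegree_sub_le _ _).trans (max_le hdF hdG)
  have h8 : D = 0 := by
    by_contra hne
    obtain ⟨E, hE⟩ := h6
    have h9 : ((X ^ (d / 2 + 1) * (X + 1) ^ (d / 2 + 1) : ℤ[X])).natDegree = 2 * (d / 2 + 1) := by
      have h12 : ((X + 1 : ℤ[X]) ^ (d / 2 + 1)).natDegree = (d / 2 + 1) := by
        have := natDegree_pow (X + C 1 : ℤ[X]) (d / 2 + 1)
        rw [natDegree_X_add_C] at this
        simpa using this
      have h13 : (X + 1 : ℤ[X]) ≠ 0 := by
        have := X_add_C_ne_zero (1 : ℤ)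
        simpa using this
      rw [natDegree_mul (pow_ne_zero _ X_ne_zero) (pow_ne_zero _ h13), natDegree_X_pow, h12]
      ring
    have h10 : E ≠ 0 := by
      rintro rfl
      rw [mul_zero] at hE
      exact hne hE
    have h11 : D.natDegree = 2 * (d / 2 + 1) + E.natDegree := by
      rw [hE, natDegree_mul (by
        intro h
        rw [h, zero_mul] at hE
        exact hne hE) h10, h9]
    omega
  rw [hD] at h8
  exact sub_eq_zero.1 h8

omit [DecidableEq V] in
lemma natDegree_fpoly (Δ : Complex V) (d : ℕ) (h : ∀ s ∈ Δ.faces, s.card ≤ d) :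
    (fpoly Δ).natDegree ≤ d := by
  unfold fpoly
  apply natDegree_sum_le_of_forall_le
  intro s hs
  rw [natDegree_X_pow]
  exact h s hs

lemma f_eq_of_g (i q r : ℕ) (Δ : Complex V) (hΔ : Δ.IsSphere (q * i + r))
    (hg : ∀ j ≤ (q * i + r) / 2, Δ.g (q * i + r) j = (K i q r).g (q * i + r) j) :
    ∀ k, Δ.f k = (K i q r).f k := by
  have h1 := f_eq_of_h Δ (K i q r) (q * i + r) ((q * i + r) / 2) (h_eq_of_g _ _ _ hg)
  have h2 : fpoly Δ = fpoly (K i q r) := by
    refine poly_eq _ _ (q * i + r) (fpoly_comp Δ _ hΔ) (fpoly_K_comp i q r)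
      (natDegree_fpoly Δ _ hΔ.card_le) (natDegree_fpoly _ _ (K_card_le i q r)) ?_
    intro k hk
    rw [coeff_fpoly, coeff_fpoly, h1 k hk]
  intro k
  have h3 := congrArg (fun P => P.coeff k) h2
  simp only [coeff_fpoly] at h3
  exact_mod_cast h3

end Feq


/-! ## The face numbers determine `K` among complexes without large missing faces -/

section Comb

variable {V W : Type*} [DecidableEq V] [DecidableEq W]

/-- the vertex set -/
def verts (Δ : Complex V) : Finset V := Δ.faces.biUnion id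

lemma mem_verts (Δ : Complex V) (v : V) : v ∈ verts Δ ↔ {v} ∈ Δ.faces := by
  unfold verts
  rw [mem_biUnion]
  constructor
  · rintro ⟨s, hs, hv⟩
    exact Δ.down s hs _ (by simpa using hv)
  · intro h
    exact ⟨_, h, by simp⟩

lemma face_subset (Δ : Complex V) (s : Finset V) (hs : s ∈ Δ.faces) : s ⊆ verts Δ := by
  intro v hv
  rw [mem_verts]
  exact Δ.down s hs _ (by simpa using hv)

lemma card_verts (Δ : Complex V) : (verts Δ).card = Δ.f 1 := by
  unfold Complex.f Complex.level
  refine Finset.card_bij (fun v _ => {v}) ?_ ?_ ?_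
  · intro v hv
    rw [mem_verts] at hv
    simp [hv]
  · intro v _ v' _ h
    exact singleton_injective h
  · intro s hs
    rw [mem_filter, card_eq_one] at hs
    obtain ⟨h1, v, rfl⟩ := hs
    exact ⟨v, (mem_verts Δ v).2 h1, rfl⟩

/-- the non-faces with `s` vertices -/
def nf (Δ : Complex V) (s : ℕ) : Finset (Finset V) :=
  ((verts Δ).powersetCard s).filter (fun S => S ∉ Δ.faces)

lemma mem_nf (Δ : Complex V) (s : ℕ) (S : Finset V) :
    S ∈ nf Δ s ↔ S ⊆ verts Δ ∧ S.card = s ∧ S ∉ Δ.faces := by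
  unfold nf
  rw [mem_filter, mem_powersetCard, and_assoc]

lemma card_nf (Δ : Complex V) (s : ℕ) : (nf Δ s).card + Δ.f s = (verts Δ).card.choose s := by
  rw [← card_powersetCard]
  have h1 : Δ.level s = ((verts Δ).powersetCard s).filter (fun S => S ∈ Δ.faces) := by
    ext S
    unfold Complex.level
    rw [mem_filter, mem_filter, mem_powersetCard]
    exact ⟨fun h => ⟨⟨face_subset Δ S h.1, h.2⟩, h.1⟩, fun h => ⟨h.2, h.1.2⟩⟩
  unfold Complex.f nf
  rw [h1, add_comm]
  exact Finset.card_filter_add_card_filter_not _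

lemma card_nf_eq (Δ : Complex V) (Γ : Complex W) (hf : ∀ k, Δ.f k = Γ.f k) (s : ℕ) :
    (nf Δ s).card = (nf Γ s).card := by
  have h1 := card_nf Δ s
  have h2 := card_nf Γ s
  rw [card_verts, hf 1, ← card_verts] at h1
  rw [hf s] at h1
  omega

lemma card_sup (X F : Finset V) (hF : F ⊆ X) (s : ℕ) :
    ((X.powersetCard s).filter (fun S => F ⊆ S)).card =
      if F.card ≤ s then (X.card - F.card).choose (s - F.card) else 0 := by
  split_ifs with h
  · rw [← card_sdiff_of_subset hF, ← card_powersetCard]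
    refine Finset.card_nbij' (fun S => S \ F) (fun S => S ∪ F) ?_ ?_ ?_ ?_
    · intro S hS
      simp only [coe_filter, mem_powersetCard, Set.mem_ofPred_eq] at hS
      simp only [mem_coe, mem_powersetCard]
      exact ⟨sdiff_subset_sdiff hS.1.1 (Subset.refl _), by
        rw [card_sdiff_of_subset hS.2, hS.1.2]⟩
    · intro S hS
      simp only [mem_coe, mem_powersetCard] at hS
      simp only [coe_filter, mem_powersetCard, Set.mem_ofPred_eq]
      have hd : Disjoint S F := disjoint_of_subset_left hS.1 sdiff_disjoint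
      refine ⟨⟨union_subset (hS.1.trans sdiff_subset) hF, ?_⟩, subset_union_right⟩
      rw [card_union_of_disjoint hd, hS.2]; omega
    · intro S hS
      simp only [coe_filter, mem_powersetCard, Set.mem_ofPred_eq] at hS
      exact sdiff_union_of_subset hS.2
    · intro S hS
      simp only [mem_coe, mem_powersetCard] at hS
      have hd : Disjoint S F := disjoint_of_subset_left hS.1 sdiff_disjoint
      exact union_sdiff_cancel_right hd
  · rw [card_eq_zero, filter_eq_empty_iff]
    intro S hS hFS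
    rw [mem_powersetCard] at hS
    have := card_le_card hFS
    omega

/-- the `j`-th block of `K` -/
def blkSet (i q r : ℕ) (j : Fin (q + 1)) : Finset (Σ j : Fin (q + 1), Fin (blk i q r j)) :=
  univ.map (Function.Embedding.sigmaMk j)

lemma mem_blkSet (i q r : ℕ) (j : Fin (q + 1)) (a : Fin (blk i q r j)) :
    (⟨j, a⟩ : Σ j : Fin (q + 1), Fin (blk i q r j)) ∈ blkSet i q r j := by
  unfold blkSet
  simp

lemma blkSet_fst (i q r : ℕ) (j : Fin (q + 1)) (w : Σ j : Fin (q + 1), Fin (blk i q r j))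
    (hw : w ∈ blkSet i q r j) : w.1 = j := by
  unfold blkSet at hw
  rw [mem_map] at hw
  obtain ⟨a, _, rfl⟩ := hw
  rfl

lemma card_blkSet (i q r : ℕ) (j : Fin (q + 1)) : (blkSet i q r j).card = blk i q r j := by
  unfold blkSet
  simp

lemma not_mem_K (i q r : ℕ) (σ : Finset (Σ j : Fin (q + 1), Fin (blk i q r j))) :
    σ ∉ (K i q r).faces ↔ ∃ j, blkSet i q r j ⊆ σ := by
  rw [K_mem]
  push Not
  refine exists_congr fun j => ?_
  constructor
  · intro h w hw
    have h1 := blkSet_fst i q r j w hw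
    subst h1
    exact h w.2
  · intro h a
    exact h (mem_blkSet i q r j a)

lemma verts_K (i q r : ℕ) (hr : 1 ≤ r) (hi : r ≤ i) : verts (K i q r) = univ := by
  ext w
  simp only [mem_univ, iff_true]
  rw [mem_verts]
  by_contra h
  rw [not_mem_K] at h
  obtain ⟨j, hj⟩ := h
  have h1 := card_le_card hj
  rw [card_blkSet, card_singleton] at h1
  unfold blk at h1
  split_ifs at h1 <;> omega

lemma blkSet_not_subset (i q r : ℕ) (j j' : Fin (q + 1)) (h : j ≠ j') :
    ¬ blkSet i q r j ⊆ blkSet i q r j' := by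
  intro h1
  have h2 := mem_blkSet i q r j ⟨0, blk_pos i q r j⟩
  exact h (blkSet_fst i q r j' _ (h1 h2))

lemma nf_K_small (i q r : ℕ) (s : ℕ) (hs : s ≤ i) :
    nf (K i q r) s = ((verts (K i q r)).powersetCard s).filter (fun S => blkSet i q r 0 ⊆ S) := by
  ext S
  rw [mem_nf, mem_filter, mem_powersetCard, not_mem_K]
  constructor
  · rintro ⟨h1, h2, j, hj⟩
    refine ⟨⟨h1, h2⟩, ?_⟩
    by_cases hj0 : j = 0
    · rw [← hj0]; exact hj
    · exfalso
      have h3 := card_le_card hj
      rw [card_blkSet, h2] at h3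
      unfold blk at h3
      rw [if_neg hj0] at h3
      omega
  · rintro ⟨⟨h1, h2⟩, h3⟩
    exact ⟨h1, h2, 0, h3⟩

lemma nf_K_top (i q r : ℕ) (hr : 1 ≤ r) (hi : r ≤ i) :
    ((nf (K i q r) (i + 1)).filter (fun S => ¬ blkSet i q r 0 ⊆ S)).card = q := by
  have h1 : (nf (K i q r) (i + 1)).filter (fun S => ¬ blkSet i q r 0 ⊆ S) =
      (univ : Finset (Fin q)).image (fun j => blkSet i q r j.succ) := by
    ext S
    rw [mem_filter, mem_nf, not_mem_K, mem_image]
    constructor
    · rintro ⟨⟨_, h2, j, hj⟩, h3⟩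
      have hj0 : j ≠ 0 := by
        rintro rfl
        exact h3 hj
      obtain ⟨j', rfl⟩ := Fin.exists_succ_eq.2 hj0
      refine ⟨j', mem_univ _, ?_⟩
      apply eq_of_subset_of_card_le hj
      rw [h2, card_blkSet]
      unfold blk
      rw [if_neg hj0]
    · rintro ⟨j', _, rfl⟩
      refine ⟨⟨?_, ?_, j'.succ, Subset.refl _⟩, ?_⟩
      · rw [verts_K i q r hr hi]; exact subset_univ _
      · rw [card_blkSet]
        unfold blk
        rw [if_neg (Fin.succ_ne_zero j')]
      · exact blkSet_not_subset i q r 0 j'.succ (Fin.succ_ne_zero j').symm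
  rw [h1, card_image_of_injective, card_univ, Fintype.card_fin]
  intro j j' h
  by_contra hne
  exact blkSet_not_subset i q r j.succ j'.succ (fun h' => hne (Fin.succ_injective _ h'))
    (subset_of_eq h)

/-- **A complex without missing faces of dimension `> i` that has the face numbers of
`K(i, d-1)` is isomorphic to `K(i, d-1)`.** -/
theorem iso_of_f (i q r : ℕ) (hr : 1 ≤ r) (hi : r ≤ i) (Δ : Complex V)
    (hm : ∀ τ, Δ.IsMissing τ → τ.card ≤ i + 1) (hf : ∀ k, Δ.f k = (K i q r).f k) :
    Iso (K i q r) Δ := by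
  have hn : (verts Δ).card = (r + 1) + q * (i + 1) := by
    rw [card_verts, hf 1, ← card_verts, verts_K i q r hr hi, card_univ, Fintype.card_sigma]
    simp only [Fintype.card_fin]
    exact sum_blk i q r
  have hnK : (verts (K i q r)).card = (verts Δ).card := by
    rw [card_verts, card_verts, hf 1]
  have hnf := card_nf_eq Δ (K i q r) hf
  have hB0 : blkSet i q r 0 ⊆ verts (K i q r) := by
    rw [verts_K i q r hr hi]; exact subset_univ _
  have hB0c : (blkSet i q r 0).card = r + 1 := by rw [card_blkSet]; rfl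
  -- the missing face `F`
  have hF0 : (nf Δ (r + 1)).Nonempty := by
    rw [← card_pos, hnf, card_pos]
    exact ⟨blkSet i q r 0, (mem_nf _ _ _).2 ⟨hB0, hB0c, (not_mem_K i q r _).2 ⟨0, Subset.refl _⟩⟩⟩
  obtain ⟨F, hF⟩ := hF0
  rw [mem_nf] at hF
  obtain ⟨hFX, hFc, hFn⟩ := hF
  have hsup : ∀ S : Finset V, F ⊆ S → S ∉ Δ.faces := fun S h h' => hFn (Δ.down S h' F h)
  have hcount : ∀ s, (((verts Δ).powersetCard s).filter (fun S => F ⊆ S)).card =
      (((verts (K i q r)).powersetCard s).filter (fun S => blkSet i q r 0 ⊆ S)).card := by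
    intro s
    rw [card_sup _ _ hFX, card_sup _ _ hB0, hFc, hB0c, hnK]
  have hsubF : ∀ s, ((verts Δ).powersetCard s).filter (fun S => F ⊆ S) ⊆ nf Δ s := by
    intro s S hS
    rw [mem_filter, mem_powersetCard] at hS
    rw [mem_nf]
    exact ⟨hS.1.1, hS.1.2, hsup S hS.2⟩
  have hsmall : ∀ S ⊆ verts Δ, S.card ≤ i → S ∉ Δ.faces → F ⊆ S := by
    intro S hS hc hSn
    have h1 : ((verts Δ).powersetCard S.card).filter (fun S => F ⊆ S) = nf Δ S.card := by
      apply eq_of_subset_of_card_le (hsubF _)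
      rw [hcount, hnf, nf_K_small i q r _ hc]
    have h2 : S ∈ nf Δ S.card := (mem_nf _ _ _).2 ⟨hS, rfl, hSn⟩
    rw [← h1, mem_filter] at h2
    exact h2.2
  -- the other missing faces
  set G := (nf Δ (i + 1)).filter (fun S => ¬ F ⊆ S) with hG
  have hGc : G.card = q := by
    have h1 : ((nf Δ (i + 1)).filter (fun S => F ⊆ S)) =
        ((verts Δ).powersetCard (i + 1)).filter (fun S => F ⊆ S) := by
      ext S
      rw [mem_filter, mem_filter, mem_nf, mem_powersetCard]
      exact ⟨fun h => ⟨⟨h.1.1, h.1.2.1⟩, h.2⟩, fun h => ⟨⟨h.1.1, h.1.2, hsup S h.2⟩, h.2⟩⟩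
    have h2 : ((nf (K i q r) (i + 1)).filter (fun S => blkSet i q r 0 ⊆ S)) =
        ((verts (K i q r)).powersetCard (i + 1)).filter (fun S => blkSet i q r 0 ⊆ S) := by
      ext S
      rw [mem_filter, mem_filter, mem_nf, mem_powersetCard]
      exact ⟨fun h => ⟨⟨h.1.1, h.1.2.1⟩, h.2⟩,
        fun h => ⟨⟨h.1.1, h.1.2, (not_mem_K i q r _).2 ⟨0, h.2⟩⟩, h.2⟩⟩
    have h3 := Finset.card_filter_add_card_filter_not (s := nf Δ (i + 1)) (fun S => F ⊆ S)
    have h4 := Finset.card_filter_add_card_filter_not (s := nf (K i q r) (i + 1))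
      (fun S => blkSet i q r 0 ⊆ S)
    rw [h1] at h3
    rw [h2, nf_K_top i q r hr hi] at h4
    rw [hcount] at h3
    have h5 := hnf (i + 1)
    rw [hG]
    omega
  have hGmem : ∀ S ∈ G, S ⊆ verts Δ ∧ S.card = i + 1 ∧ S ∉ Δ.faces := by
    intro S hS
    rw [hG, mem_filter, mem_nf] at hS
    exact hS.1
  -- every non-face contains one of these
  have hcov : ∀ S ⊆ verts Δ, S ∉ Δ.faces → ∃ M ∈ insert F G, M ⊆ S := by
    intro S hS hSn
    obtain ⟨M, hM1, hM2⟩ := Finset.exists_minimal (s := S.powerset.filter (fun T => T ∉ Δ.faces))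
      ⟨S, by simp [hSn]⟩
    have hM3 := hM1
    rw [mem_filter, mem_powerset] at hM3
    have hMX : M ⊆ verts Δ := hM3.1.trans hS
    have hMm : Δ.IsMissing M := by
      refine ⟨fun v hv => (mem_verts Δ v).1 (hMX hv), hM3.2, ?_⟩
      intro ρ hρ
      by_contra hρn
      have h1 : ρ ∈ S.powerset.filter (fun T => T ∉ Δ.faces) := by
        rw [mem_filter, mem_powerset]
        exact ⟨hρ.subset.trans hM3.1, hρn⟩
      exact hρ.not_subset (hM2 h1 hρ.subset)
    have hMc := hm M hMm
    by_cases hFM : F ⊆ M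
    · exact ⟨F, mem_insert_self _ _, hFM.trans hM3.1⟩
    · have hMi : M.card = i + 1 := by
        by_contra h
        exact hFM (hsmall M hMX (by omega) hM3.2)
      refine ⟨M, mem_insert_of_mem ?_, hM3.1⟩
      rw [hG, mem_filter, mem_nf]
      exact ⟨⟨hMX, hMi, hM3.2⟩, hFM⟩
  have hFG : F ∉ G := by
    rw [hG, mem_filter]
    exact fun h => h.2 (Subset.refl _)
  have hMc : (insert F G).card = q + 1 := by rw [card_insert_of_notMem hFG, hGc]
  have hne : ∀ M ∈ insert F G, M.Nonempty := by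
    intro M hM
    rw [← card_pos]
    rcases mem_insert.1 hM with rfl | h
    · omega
    · rw [(hGmem M h).2.1]; omega
  -- they are pairwise disjoint
  have hdis : ∀ A ∈ insert F G, ∀ B ∈ insert F G, A ≠ B → Disjoint A B := by
    intro A hA B hB hAB
    rw [Finset.disjoint_left]
    intro v hvA hvB
    have hch : ∃ c : Finset V → V, ∀ M ∈ insert F G, c M ∈ M := by
      classical
      refine ⟨fun M => if h : M.Nonempty then h.choose else v, fun M hM => ?_⟩
      simp only [dif_pos (hne M hM)]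
      exact (hne M hM).choose_spec
    obtain ⟨c, hc⟩ := hch
    set T := insert v ((((insert F G).erase A).erase B).image c) with hT
    have hTc : T.card ≤ q := by
      have h1 := card_insert_le v ((((insert F G).erase A).erase B).image c)
      rw [← hT] at h1
      have h2 : ((((insert F G).erase A).erase B).image c).card ≤
        (((insert F G).erase A).erase B).card := card_image_le
      rw [card_erase_of_mem (mem_erase.2 ⟨hAB.symm, hB⟩), card_erase_of_mem hA, hMc] at h2
      have hq : 1 ≤ q := by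
        have h3 : ({A, B} : Finset (Finset V)) ⊆ insert F G := by
          intro x hx
          rw [mem_insert, mem_singleton] at hx
          rcases hx with rfl | rfl
          · exact hA
          · exact hB
        have h4 := card_le_card h3
        rw [card_pair hAB, hMc] at h4
        omega
      omega
    have hTM : ∀ M ∈ insert F G, ∃ x ∈ M, x ∈ T := by
      intro M hM
      by_cases h1 : M = A
      · exact ⟨v, by rw [h1]; exact hvA, mem_insert_self _ _⟩
      · by_cases h2 : M = B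
        · exact ⟨v, by rw [h2]; exact hvB, mem_insert_self _ _⟩
        · exact ⟨c M, hc M hM, mem_insert_of_mem (mem_image_of_mem _
            (mem_erase.2 ⟨h2, mem_erase.2 ⟨h1, hM⟩⟩))⟩
    have hface : verts Δ \ T ∈ Δ.faces := by
      by_contra h
      obtain ⟨M, hM, hMS⟩ := hcov _ sdiff_subset h
      obtain ⟨x, hx1, hx2⟩ := hTM M hM
      have := hMS hx1
      rw [mem_sdiff] at this
      exact this.2 hx2
    have h5 : q * i + r + 1 ≤ (verts Δ \ T).card := by
      have h6 := le_card_sdiff T (verts Δ)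
      rw [hn] at h6
      have h7 : q * (i + 1) = q * i + q := by ring
      omega
    have h8 : 0 < Δ.f (verts Δ \ T).card := by
      unfold Complex.f Complex.level
      rw [card_pos]
      exact ⟨verts Δ \ T, by simp [hface]⟩
    rw [hf] at h8
    unfold Complex.f Complex.level at h8
    rw [card_pos] at h8
    obtain ⟨s, hs⟩ := h8
    rw [mem_filter] at hs
    have h9 := K_card_le i q r s hs.1
    omega
  -- enumeration
  let eG : G ≃ Fin q := G.equivFinOfCardEq hGc
  let M : Fin (q + 1) → Finset V := Fin.cons F (fun j => ((eG.symm j : G) : Finset V))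
  have hM0 : M 0 = F := rfl
  have hMs : ∀ j : Fin q, M j.succ = ((eG.symm j : G) : Finset V) := fun j => rfl
  have hMmem : ∀ j, M j ∈ insert F G := by
    intro j
    refine Fin.cases ?_ (fun j => ?_) j
    · rw [hM0]; exact mem_insert_self _ _
    · rw [hMs]; exact mem_insert_of_mem (eG.symm j).2
  have hMinj : Function.Injective M := by
    intro j j'
    refine Fin.cases ?_ (fun j => ?_) j
    · refine Fin.cases (fun _ => rfl) (fun j' => ?_) j'
      intro h
      rw [hM0, hMs] at h
      exact absurd (h ▸ (eG.symm j').2) hFG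
    · refine Fin.cases ?_ (fun j' => ?_) j'
      · intro h
        rw [hM0, hMs] at h
        exact absurd (h ▸ (eG.symm j).2) hFG
      · intro h
        rw [hMs, hMs] at h
        rw [eG.symm.injective (Subtype.ext h)]
  have hMsurj : ∀ S ∈ insert F G, ∃ j, M j = S := by
    intro S hS
    rcases mem_insert.1 hS with rfl | h
    · exact ⟨0, hM0⟩
    · refine ⟨(eG ⟨S, h⟩).succ, ?_⟩
      rw [hMs, Equiv.symm_apply_apply]
  have hMcard : ∀ j, (M j).card = blk i q r j := by
    intro j
    refine Fin.cases ?_ (fun j => ?_) j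
    · rw [hM0, hFc]; rfl
    · rw [hMs, (hGmem _ (eG.symm j).2).2.1]
      unfold blk
      rw [if_neg (Fin.succ_ne_zero j)]
  have hMn : ∀ j, M j ∉ Δ.faces := by
    intro j
    rcases mem_insert.1 (hMmem j) with h | h
    · rw [h]; exact hFn
    · exact (hGmem _ h).2.2
  have hMX : ∀ j, M j ⊆ verts Δ := by
    intro j
    rcases mem_insert.1 (hMmem j) with h | h
    · rw [h]; exact hFX
    · exact (hGmem _ h).1
  let e : ∀ j, M j ≃ Fin (blk i q r j) := fun j => (M j).equivFinOfCardEq (hMcard j)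
  let φ : (Σ j : Fin (q + 1), Fin (blk i q r j)) → V := fun w => ((e w.1).symm w.2 : M w.1)
  have hφmem : ∀ j a, φ ⟨j, a⟩ ∈ M j := fun j a => ((e j).symm a).2
  have hφinj : Function.Injective φ := by
    rintro ⟨j, a⟩ ⟨j', a'⟩ h
    have hjj : j = j' := by
      by_contra hne'
      have h1 := hdis _ (hMmem j) _ (hMmem j') (fun h' => hne' (hMinj h'))
      rw [Finset.disjoint_left] at h1
      exact h1 (hφmem j a) (h ▸ hφmem j' a')
    subst hjj
    have h2 : (e j).symm a = (e j).symm a' := Subtype.ext h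
    rw [(e j).symm.injective h2]
  have hφsurj : ∀ v ∈ verts Δ, ∃ w, φ w = v := by
    have h1 : univ.image φ = verts Δ := by
      apply eq_of_subset_of_card_le
      · intro v hv
        rw [mem_image] at hv
        obtain ⟨⟨j, a⟩, _, rfl⟩ := hv
        exact hMX j (hφmem j a)
      · rw [card_image_of_injective _ hφinj, hn, card_univ, Fintype.card_sigma]
        simp only [Fintype.card_fin]
        exact (sum_blk i q r).ge
    intro v hv
    rw [← h1, mem_image] at hv
    obtain ⟨w, _, hw⟩ := hv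
    exact ⟨w, hw⟩
  have hφM : ∀ j, ∀ v ∈ M j, ∃ a, φ ⟨j, a⟩ = v := by
    intro j v hv
    exact ⟨e j ⟨v, hv⟩, by show (((e j).symm (e j ⟨v, hv⟩) : M j) : V) = v; simp⟩
  refine ⟨φ, hφinj.injOn, ?_⟩
  ext s
  rw [mem_image]
  constructor
  · intro hs
    refine ⟨univ.filter (fun w => φ w ∈ s), ?_, ?_⟩
    · by_contra h
      rw [not_mem_K] at h
      obtain ⟨j, hj⟩ := h
      apply hMn j
      refine Δ.down s hs _ ?_
      intro v hv
      obtain ⟨a, rfl⟩ := hφM j v hv
      have := hj (mem_blkSet i q r j a)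
      simpa using this
    · ext v
      rw [mem_image]
      constructor
      · rintro ⟨w, hw, rfl⟩
        simpa using hw
      · intro hv
        obtain ⟨w, rfl⟩ := hφsurj v (face_subset Δ s hs hv)
        exact ⟨w, by simpa using hv, rfl⟩
  · rintro ⟨σ, hσ, rfl⟩
    by_contra h
    have h1 : σ.image φ ⊆ verts Δ := by
      intro v hv
      rw [mem_image] at hv
      obtain ⟨⟨j, a⟩, _, rfl⟩ := hv
      exact hMX j (hφmem j a)
    obtain ⟨S, hS, hS2⟩ := hcov _ h1 h
    obtain ⟨j, rfl⟩ := hMsurj S hS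
    rw [K_mem] at hσ
    obtain ⟨a, ha⟩ := hσ j
    have h2 := hS2 (hφmem j a)
    rw [mem_image] at h2
    obtain ⟨w, hw, hw2⟩ := h2
    rw [hφinj hw2] at hw
    exact ha hw

end Comb

/-- **Q2, answered yes for every pair `(i, d)` and without assuming the inequality of Q1.**
For `d = q i + r` with `1 ≤ r ≤ i`: a `(d-1)`-sphere `Δ ∈ S(i, d-1)` with
`g_j(Δ) = g_j(K(i, d-1))` for all `0 ≤ j ≤ d / 2` is isomorphic to `K(i, d-1)`.

Moreover every complex without missing faces of dimension `> i` that has the same face numbers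
as `K(i, d-1)` is isomorphic to it. -/
theorem result (i q r : ℕ) (hr : 1 ≤ r) (hi : r ≤ i) (V : Type u) [DecidableEq V]
    (Δ : Complex V) :
    (InS i (q * i + r) Δ →
      (∀ j ≤ (q * i + r) / 2, Δ.g (q * i + r) j = (K i q r).g (q * i + r) j) →
      Iso (K i q r) Δ) ∧
    ((∀ τ, Δ.IsMissing τ → τ.card ≤ i + 1) → (∀ k, Δ.f k = (K i q r).f k) →
      Iso (K i q r) Δ) := by
  constructor
  · intro h1 h2
    exact iso_of_f i q r hr hi Δ h1.2 (f_eq_of_g i q r Δ h1.1 h2)
  · intro h1 h2
    exact iso_of_f i q r hr hi Δ h1 h2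

end Pool.Agent.Results.MP_94a3a7_co.UniqueMinimizer
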